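import Pool.Agent.Helper84.NC.Bound
import Pool.Agent.Helper81.NC.Ripe
import Pool.Agent.Helper66.NB.Num2

/-!
# The bound in numbers (programs over bits)
-/

set_option autoImplicit false

namespace Pool.Agent.Helper58.NC

open Pool.Agent.Helper19.NF (Prog ring out Pos Dir)
open Pool.Agent.Helper27.NC (bword table)
open Pool.Agent.Helper84.NC (bound_word)
open Pool.Agent.Helper81.NC (ripe_part)

/-- `6 m ^ 2 ≤ sqrt n` forces `1 ≤ n` and `m ≤ n`. -/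
theorem small {n m : ℕ} (hm : 1 ≤ m) (hm2 : (6 * m ^ 2 : ℝ) ≤ Real.sqrt n) :
    1 ≤ n ∧ m ≤ n ∧ 4 * (m : ℝ) ^ 2 / n ≤ 1 / Real.sqrt n := by
  have hmR : (1 : ℝ) ≤ m := by exact_mod_cast hm
  have hn : 1 ≤ n := by
    rcases Nat.eq_zero_or_pos n with h | h
    · subst h
      simp at hm2
      nlinarith
    · exact h
  have hnR : (1 : ℝ) ≤ n := by exact_mod_cast hn
  have hs : Real.sqrt n * Real.sqrt n = n := Real.mul_self_sqrt (by linarith)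
  have hs1 : (1 : ℝ) ≤ Real.sqrt n := by
    rw [Real.one_le_sqrt]
    exact hnR
  refine ⟨hn, ?_, ?_⟩
  · have h1 : (m : ℝ) ≤ n := by nlinarith
    exact_mod_cast h1
  · rw [div_le_div_iff₀ (by linarith) (by linarith)]
    nlinarith

/-- The bound in numbers. -/
theorem head {K : Type} [Field K] [Fintype K] {n m e σ S : ℕ} [NeZero m] {Y : Type} (c : ℕ) [hc : Fact c.Prime]
    [CharP K c] (d : ℕ) (he : 1 ≤ e) (δ : ℝ) (hδ : 0 < δ) (hδc : 8 ≤ δ * c)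
    (hlog : 2 * Real.log n / m ≤ δ / 2) (hr2 : (8 * (2 * m * e : ℕ) : ℝ) ≤ δ * Fintype.card K)
    (hd : (8 * d : ℝ) ≤ δ * (Fintype.card K : ℝ) ^ 2) (hm2 : (6 * (m * Fintype.card K) ^ 2 : ℝ) ≤ Real.sqrt n)
    (hk : n ^ 5 ≤ Fintype.card K ^ e) (_hr' : 2 * m * e ≤ Fintype.card K)
    (hW : ((4 * Fintype.card K ^ e : ℕ) : ℝ) *
      ((Fintype.card K : ℝ) ^ (2 * m * e) * (1 - 1 / (8 * (c : ℝ) ^ 2)) ^ d) ≤ 1)
    (hn10 : 10 / Real.sqrt n ≤ δ)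
    (x0 : ZMod (n + 1) × ZMod m → Fin e → K) (h0 : Function.Injective x0) (φ : (Fin e → K) → Y) (p T : ℕ)
    (hφ : ∀ y, Nat.card {b // φ b = y} ≤ p)
    (hT : (T : ℝ) ≤ (1 - δ) * ((Fintype.card K : ℝ) ^ e * (Fintype.card K : ℝ) ^ 2))
    (hS : (S : ℝ) ≤ σ * (n : ℝ) ^ ((n : ℝ) / 3)) (P : Prog ((Fin e → K) × (K × K)) Bool (Y × Fin σ) σ S) :
    (Nat.card {s : Fin σ × ((Fin e → K) × (K × K) → Bool) //
        P.Outputs s.2 (P.start s.1) (φ (out x0 (table s.2)), s.1) ∧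
        Nat.card {b // P.Asks s.2 (P.start s.1) b} ≤ T} : ℝ) ≤
      (p / (Fintype.card K : ℝ) ^ e + δ) * Nat.card (Fin σ × ((Fin e → K) × (K × K) → Bool)) := by
  classical
  set Q := Fintype.card K with hQdef
  have hQ : 1 ≤ Q := Fintype.card_pos
  have hQR : (1 : ℝ) ≤ Q := by exact_mod_cast hQ
  have hδ1 : δ ≤ 1 := by
    by_contra hneg
    push Not at hneg
    have h1 : (1 - δ) * ((Q : ℝ) ^ e * (Q : ℝ) ^ 2) < 0 := mul_neg_of_neg_of_pos (by linarith) (by positivity)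
    have h2 : (0 : ℝ) ≤ T := Nat.cast_nonneg _
    linarith
  have hc8 : 8 ≤ c := by
    have hc0 : (0 : ℝ) ≤ c := Nat.cast_nonneg c
    have h1 : (8 : ℝ) ≤ c := by nlinarith
    exact_mod_cast h1
  have hcR : (8 : ℝ) ≤ c := by exact_mod_cast hc8
  have hcQ : c ∣ Q := by
    obtain ⟨k, -, hk'⟩ := FiniteField.card K c
    rw [hQdef, hk']
    exact dvd_pow_self _ k.pos.ne'
  have hm : 1 ≤ m := Nat.one_le_iff_ne_zero.2 (NeZero.ne m)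
  have hmR : (1 : ℝ) ≤ m := by exact_mod_cast hm
  have hcB : Fintype.card (Fin e → K) = Q ^ e := by simp [hQdef]
  have hk1 : 1 ≤ Q ^ e := Nat.one_le_pow _ _ hQ
  have hkR : (0 : ℝ) < (Q : ℝ) ^ e := by positivity
  have hm2' : (6 * m ^ 2 : ℝ) ≤ Real.sqrt n := by
    refine le_trans ?_ hm2
    have : (m : ℝ) ^ 2 ≤ (m * Q) ^ 2 := by
      refine pow_le_pow_left₀ (by linarith) ?_ 2
      nlinarith
    linarith
  obtain ⟨hn, hmn, hm4⟩ := small hm hm2'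
  have hnR : (1 : ℝ) ≤ n := by exact_mod_cast hn
  have hs1 : (1 : ℝ) ≤ Real.sqrt n := by
    rw [Real.one_le_sqrt]
    exact hnR
  have hsn : Real.sqrt n ≤ n := by
    rw [Real.sqrt_le_left (by linarith)]
    nlinarith
  -- fibres
  set p' := min p (Q ^ e) with hp'
  have hφ' : ∀ y, Nat.card {b // φ b = y} ≤ p' := by
    intro y
    refine le_min (hφ y) ?_
    rw [← hcB, ← Nat.card_eq_fintype_card]
    exact Nat.card_le_card_of_injective _ Subtype.val_injective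
  -- sizes
  have hr : 1 ≤ 2 * m * e := Nat.mul_pos (by omega) he
  have hrQ : 2 * m * e ≤ Q := by
    have h1 : (8 * (2 * m * e : ℕ) : ℝ) ≤ Q := hr2.trans (by nlinarith)
    have h2 : ((2 * m * e : ℕ) : ℝ) ≤ Q := by
      have : (0 : ℝ) ≤ ((2 * m * e : ℕ) : ℝ) := Nat.cast_nonneg _
      linarith
    exact_mod_cast h2
  have hdlt : d < (Q - (2 * m * e - 1)) * (Q - Q / c) := by
    have e1 : ((Q - (2 * m * e - 1) : ℕ) : ℝ) = Q - ((2 * m * e : ℕ) - 1) := by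
      rw [Nat.cast_sub (by omega), Nat.cast_sub hr, Nat.cast_one]
    have h1 : (7 / 8 : ℝ) * Q ≤ ((Q - (2 * m * e - 1) : ℕ) : ℝ) := by
      rw [e1]
      have h2 : (8 * (2 * m * e : ℕ) : ℝ) ≤ Q := hr2.trans (by nlinarith)
      linarith
    have e2 : ((Q - Q / c : ℕ) : ℝ) = Q - Q / c := by
      rw [Nat.cast_sub (Nat.div_le_self Q c), Nat.cast_div hcQ (by linarith)]
    have h3 : (7 / 8 : ℝ) * Q ≤ ((Q - Q / c : ℕ) : ℝ) := by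
      rw [e2]
      have h4 : (Q : ℝ) / c ≤ Q / 8 := by gcongr
      linarith
    have h5 : (d : ℝ) < ((Q - (2 * m * e - 1) : ℕ) : ℝ) * ((Q - Q / c : ℕ) : ℝ) := by
      have h6 : (8 * d : ℝ) ≤ (Q : ℝ) ^ 2 := hd.trans (by nlinarith [sq_nonneg (Q : ℝ)])
      have h7 : (7 / 8 : ℝ) * Q * (7 / 8 * Q) ≤ ((Q - (2 * m * e - 1) : ℕ) : ℝ) * ((Q - Q / c : ℕ) : ℝ) :=
        mul_le_mul h1 h3 (by positivity) (Nat.cast_nonneg _)
      nlinarith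
    exact_mod_cast h5
  have hnm : n * m ≤ Q ^ e := by
    calc n * m ≤ n * n := Nat.mul_le_mul_left n hmn
      _ = n ^ 2 := (pow_two n).symm
      _ ≤ n ^ 5 := Nat.pow_le_pow_right hn (by norm_num)
      _ ≤ Q ^ e := hk
  have h1 := bound_word (K := K) c d (4 * Q ^ e) hn he hrQ hdlt (by omega)
    (by show 2 * Q ^ e ≤ 4 * Q ^ e; omega) (by exact hW) n (by linarith) x0 h0 φ p' T hφ' P
  rw [← hQdef] at h1
  set T' : ℕ := T / ((Q - (2 * m * e - 1)) * (Q - Q / c) - d) with hT'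
  -- the parts
  have hK0 : (0 : ℝ) ≤ (T : ℝ) / (Q : ℝ) ^ e := by positivity
  have hK : (T : ℝ) / (Q : ℝ) ^ e ≤ (Q : ℝ) ^ 2 := by
    rw [div_le_iff₀ hkR]
    refine hT.trans ?_
    have h3 : (0 : ℝ) ≤ (Q : ℝ) ^ e * (Q : ℝ) ^ 2 := by positivity
    nlinarith
  have hK0' : (0 : ℝ) ≤ (T' : ℝ) / (Q : ℝ) ^ e := by positivity
  have hK' : (T' : ℝ) / (Q : ℝ) ^ e ≤ 1 - 2 * Real.log n / m := by
    have h2 := ripe_part c Q (2 * m * e) (Q ^ e) T d δ (by omega) hcQ hQ hr hk1 hδ hδc hr2 hd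
      (by push_cast; exact hT)
    rw [← hT'] at h2
    push_cast at h2
    linarith
  have h2 := Pool.Agent.Helper66.NB.numbers_sqrt n m Q ((n : ℝ) ^ ((n : ℝ) / 3)) _ _ (by positivity) hm hQ hK0 hK
    hK0' hK' hm2 le_rfl
  -- collisions
  have hk5 : (n : ℝ) ^ 5 ≤ (Q : ℝ) ^ e := by exact_mod_cast hk
  have h3 : 2 * ((n : ℝ) * (n + 1) * m) ^ 2 / (Q : ℝ) ^ e ≤ 2 / Real.sqrt n := by
    have h4 : 2 * ((n : ℝ) * (n + 1) * m) ^ 2 ≤ 2 * (4 * (m : ℝ) ^ 2 * n ^ 4) := by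
      have h5 : (n : ℝ) * (n + 1) * m ≤ 2 * m * n ^ 2 := by
        nlinarith [mul_nonneg (by linarith : (0 : ℝ) ≤ n) (by linarith : (0 : ℝ) ≤ m),
          mul_nonneg (mul_nonneg (by linarith : (0 : ℝ) ≤ n) (by linarith : (0 : ℝ) ≤ m)) (by linarith : (0 : ℝ) ≤ (n : ℝ) - 1)]
      have h6 : ((n : ℝ) * (n + 1) * m) ^ 2 ≤ (2 * m * n ^ 2) ^ 2 := pow_le_pow_left₀ (by positivity) h5 2
      nlinarith
    calc 2 * ((n : ℝ) * (n + 1) * m) ^ 2 / (Q : ℝ) ^ e ≤ 2 * (4 * (m : ℝ) ^ 2 * n ^ 4) / (n : ℝ) ^ 5 :=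
          div_le_div₀ (by positivity) h4 (by positivity) hk5
      _ = 2 * (4 * (m : ℝ) ^ 2 / n) := by field_simp
      _ ≤ 2 * (1 / Real.sqrt n) := by gcongr
      _ = 2 / Real.sqrt n := by ring
  -- fibres
  have hpk : (p' : ℝ) / (Q : ℝ) ^ e ≤ 1 := by
    rw [div_le_one hkR]
    exact_mod_cast min_le_right p (Q ^ e)
  have hpk' : (p' : ℝ) / (Q : ℝ) ^ e ≤ p / (Q : ℝ) ^ e := by
    gcongr
    exact_mod_cast min_le_left p (Q ^ e)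
  have hpk0 : (0 : ℝ) ≤ (p' : ℝ) / (Q : ℝ) ^ e := by positivity
  have hM4 : (1 : ℝ) / ((4 * Q ^ e : ℕ) : ℝ) ≤ 1 / Real.sqrt n := by
    have h4 : Real.sqrt n ≤ ((4 * Q ^ e : ℕ) : ℝ) := by
      push_cast
      have h5 : (n : ℝ) ≤ (n : ℝ) ^ 5 := le_self_pow₀ hnR (by norm_num)
      linarith
    exact one_div_le_one_div_of_le (by linarith) h4
  refine h1.trans ?_
  rw [Nat.card_prod, Nat.card_eq_fintype_card (α := Fin σ), Fintype.card_fin]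
  push_cast
  have hN : (0 : ℝ) ≤ Nat.card ((Fin e → K) × (K × K) → Bool) := Nat.cast_nonneg _
  refine le_trans ?_ (mul_assoc _ (σ : ℝ) (Nat.card ((Fin e → K) × (K × K) → Bool) : ℝ)).le
  refine mul_le_mul_of_nonneg_right ?_ hN
  set W : ℝ := Real.exp n * (4 * m ^ 2 * ((T : ℝ) / (Q : ℝ) ^ e) / n +
    2 * m ^ 2 * n * ((T' : ℝ) / (Q : ℝ) ^ e) ^ m) ^ (n - 1) with hWdef
  have hW0 : 0 ≤ W := by positivity
  have h4 : (S : ℝ) * W ≤ σ * ((n : ℝ) ^ ((n : ℝ) / 3) * W) := by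
    refine le_trans ?_ (mul_assoc (σ : ℝ) ((n : ℝ) ^ ((n : ℝ) / 3)) W).le
    exact mul_le_mul_of_nonneg_right hS hW0
  have hσ : (0 : ℝ) ≤ σ := Nat.cast_nonneg _
  push_cast at hM4
  have h5 : (2 * ((n : ℝ) * (n + 1) * m) ^ 2 + (1 + 1 / (4 * (Q : ℝ) ^ e)) * p') / (Q : ℝ) ^ e =
      2 * ((n : ℝ) * (n + 1) * m) ^ 2 / (Q : ℝ) ^ e + (p' / (Q : ℝ) ^ e +
        1 / (4 * (Q : ℝ) ^ e) * (p' / (Q : ℝ) ^ e)) := by ring
  rw [h5]
  have h6 : 1 / (4 * (Q : ℝ) ^ e) * (p' / (Q : ℝ) ^ e) ≤ 1 / Real.sqrt n := by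
    calc 1 / (4 * (Q : ℝ) ^ e) * (p' / (Q : ℝ) ^ e) ≤ 1 / (4 * (Q : ℝ) ^ e) * 1 := by gcongr
      _ ≤ 1 / Real.sqrt n := by rw [mul_one]; exact hM4
  have h7 : 7 / Real.sqrt n ≤ δ := by
    refine le_trans ?_ hn10
    gcongr
    norm_num
  have h8 : 7 / Real.sqrt n = 2 / Real.sqrt n + 1 / Real.sqrt n + 2 * (2 / Real.sqrt n) := by ring
  calc (σ : ℝ) * (2 * ((n : ℝ) * (n + 1) * m) ^ 2 / (Q : ℝ) ^ e + (p' / (Q : ℝ) ^ e +
        1 / (4 * (Q : ℝ) ^ e) * (p' / (Q : ℝ) ^ e)) +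
        2 * (n * m * ((T' : ℝ) / (Q : ℝ) ^ e) ^ m)) + 2 * (S * W)
      ≤ σ * (2 * ((n : ℝ) * (n + 1) * m) ^ 2 / (Q : ℝ) ^ e + (p' / (Q : ℝ) ^ e +
        1 / (4 * (Q : ℝ) ^ e) * (p' / (Q : ℝ) ^ e)) +
        2 * (n * m * ((T' : ℝ) / (Q : ℝ) ^ e) ^ m)) + 2 * (σ * ((n : ℝ) ^ ((n : ℝ) / 3) * W)) := by linarith
    _ = σ * (2 * ((n : ℝ) * (n + 1) * m) ^ 2 / (Q : ℝ) ^ e + (p' / (Q : ℝ) ^ e +
        1 / (4 * (Q : ℝ) ^ e) * (p' / (Q : ℝ) ^ e)) +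
        2 * (n * m * ((T' : ℝ) / (Q : ℝ) ^ e) ^ m + (n : ℝ) ^ ((n : ℝ) / 3) * W)) := by ring
    _ ≤ σ * (2 / Real.sqrt n + (p / (Q : ℝ) ^ e + 1 / Real.sqrt n) + 2 * (2 / Real.sqrt n)) := by gcongr
    _ ≤ (p / (Q : ℝ) ^ e + δ) * σ := by nlinarith

end Pool.Agent.Helper58.NC
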